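import Pool.Agent.W269.BL.Stm

set_option autoImplicit false

open Polynomial

namespace Pool.Agent.W20.BL

open Pool.Agent.W269.BL

universe u

theorem main : StmCORE.{u} → StmRED.{u} → StmCNT.{u} → StmMAIN.{u} := by
  intro hcore hred hcnt K _ _ p _ _ hp n A B hA hAB ε hε
  obtain ⟨F₁, T, hT, hs⟩ := hred K n A B hA hAB
  choose A' b e h1 h2 h3 h4 h5 h6 using hs
  have hc : ∀ s c : ℕ, ∃ G₀ S h₀ : K[X], S.Monic ∧ ∀ h : K[X], h.Monic → S ∣ h - h₀ →
      G₀.natDegree < p * h.natDegree → (p * h.natDegree) % 4 = c % 4 →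
      ∀ j, A' s j * (G₀ + h ^ p) + C (b s j) ≠ 0 ∧
        lam (A' s j * (G₀ + h ^ p) + C (b s j)) = ε j * e s j := by
    intro s c
    refine hcore K p hp n (A' s) (b s) (fun j => ε j * e s j) (h1 s) (h2 s) (h3 s) (h4 s) ?_ c
    intro j
    rcases hε j with h | h <;> rcases h5 s j with h' | h' <;> simp [h, h']
  choose G₀ S h₀ hS hG using hc
  obtain ⟨M, hM⟩ : ∃ M : ℕ, ∀ s < p, ∀ c < 4, (G₀ s c).natDegree + (S s c).natDegree ≤ M := by
    refine ⟨∑ s ∈ Finset.range p, ∑ c ∈ Finset.range 4,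
      ((G₀ s c).natDegree + (S s c).natDegree), ?_⟩
    intro s hs c hc
    refine le_trans ?_ (Finset.single_le_sum (f := fun s => ∑ c ∈ Finset.range 4,
      ((G₀ s c).natDegree + (S s c).natDegree)) (fun i _ => Nat.zero_le _)
      (Finset.mem_range.2 hs))
    exact Finset.single_le_sum (f := fun c => ((G₀ s c).natDegree + (S s c).natDegree))
      (fun i _ => Nat.zero_le _) (Finset.mem_range.2 hc)
  refine ⟨M + F₁.natDegree + T.natDegree + 1, ?_⟩
  intro N m hN
  have hp0 : 0 < p := (Fact.out : p.Prime).pos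
  have hp1 : 1 ≤ p := hp0
  set t := T.natDegree with ht
  set f := F₁.natDegree with hf
  have hN1 : m + (M + f + t + 1) ≤ N := le_trans (Nat.le_mul_of_pos_left _ hp0) hN
  set s := (N - t) % p with hsd
  set m' := (N - t) / p with hm'
  have hdiv : p * m' + s = N - t := Nat.div_add_mod (N - t) p
  have hs : s < p := Nat.mod_lt _ hp0
  have hm'' : m + M + f + 1 ≤ m' := by
    rw [hm', Nat.le_div_iff_mul_le hp0]
    have h1 : p * (m + (M + f + t + 1)) = (m + M + f + 1) * p + p * t := by ring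
    have h2 : t ≤ p * t := Nat.le_mul_of_pos_left _ hp0
    omega
  set c := (p * m') % 4 with hcd
  have hc4 : c < 4 := Nat.mod_lt _ (by norm_num)
  have hMM := hM s hs c hc4
  have hpm : m' ≤ p * m' := Nat.le_mul_of_pos_left _ hp0
  -- the class
  have hcount := hcnt K (S s c) (h₀ s c) (hS s c) m' (by omega)
  have hq : Fintype.card K ^ m ≤ Fintype.card K ^ (m' - (S s c).natDegree) :=
    Nat.pow_le_pow_right Fintype.card_pos (by omega)
  refine le_trans hq (le_trans hcount ?_)
  have hfin : {F : K[X] | F.Monic ∧ F.natDegree = N ∧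
        ∀ j, A j * F + B j ≠ 0 ∧ lam (A j * F + B j) = ε j}.Finite := by
    refine Set.Finite.subset (s := (Polynomial.degreeLT K (N + 1) : Set K[X])) ?_ ?_
    · have : Finite (Polynomial.degreeLT K (N + 1)) :=
        Finite.of_equiv _ (Polynomial.degreeLTEquiv K (N + 1)).symm.toEquiv
      exact Set.toFinite _
    · rintro F ⟨hF, hFN, -⟩
      rw [SetLike.mem_coe, Polynomial.mem_degreeLT]
      refine lt_of_le_of_lt Polynomial.degree_le_natDegree ?_
      rw [hFN]
      exact_mod_cast Nat.lt_succ_self N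
  refine Set.ncard_le_ncard_of_injOn (fun h => F₁ + X ^ s * T * (G₀ s c + h ^ p)) ?_ ?_ hfin
  · rintro h ⟨hm, hd, hdv⟩
    have key := hG s c h hm hdv (by rw [hd]; omega) (by rw [hd]; omega)
    have hhp : (h ^ p).Monic := hm.pow p
    have hhpd : (h ^ p).natDegree = p * m' := by rw [hm.natDegree_pow, hd]
    have hlt : (G₀ s c).degree < (h ^ p).degree := by
      apply Polynomial.degree_lt_degree
      rw [hhpd]; omega
    have hGm : (G₀ s c + h ^ p).Monic := hhp.add_of_right hlt
    have hGd : (G₀ s c + h ^ p).natDegree = p * m' := by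
      rw [Polynomial.natDegree_add_eq_right_of_degree_lt hlt, hhpd]
    have hXT : (X ^ s * T : K[X]).Monic := (monic_X_pow s).mul hT
    have hXTd : (X ^ s * T : K[X]).natDegree = s + t := by
      rw [(monic_X_pow s).natDegree_mul hT, natDegree_X_pow]
    have hXG : (X ^ s * T * (G₀ s c + h ^ p)).Monic := hXT.mul hGm
    have hXGd : (X ^ s * T * (G₀ s c + h ^ p)).natDegree = N := by
      rw [hXT.natDegree_mul hGm, hXTd, hGd]; omega
    have hlt2 : F₁.degree < (X ^ s * T * (G₀ s c + h ^ p)).degree := by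
      apply Polynomial.degree_lt_degree
      rw [hXGd]; omega
    refine ⟨hXG.add_of_right hlt2, ?_, ?_⟩
    · show (F₁ + X ^ s * T * (G₀ s c + h ^ p)).natDegree = N
      rw [Polynomial.natDegree_add_eq_right_of_degree_lt hlt2, hXGd]
    · intro j
      obtain ⟨k1, k2⟩ := key j
      obtain ⟨k3, k4⟩ := h6 s (G₀ s c + h ^ p) j k1
      refine ⟨k3, ?_⟩
      show lam (A j * (F₁ + X ^ s * T * (G₀ s c + h ^ p)) + B j) = ε j
      rw [k4, k2]
      rcases h5 s j with h' | h' <;> simp [h']
  · intro a ha a' ha' haa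
    simp only [add_right_inj] at haa
    have hne : (X ^ s * T : K[X]) ≠ 0 := ((monic_X_pow s).mul hT).ne_zero
    have h7 := mul_left_cancel₀ hne haa
    rw [add_right_inj] at h7
    have h8 : (a - a') ^ p = 0 := by
      rw [sub_pow_char, h7, sub_self]
    have h9 := pow_eq_zero_iff (Fact.out : p.Prime).ne_zero |>.1 h8
    exact sub_eq_zero.1 h9

end Pool.Agent.W20.BL
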